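import Pool.Agent.Helper77.PPS.GoalsN
import Pool.Agent.Helper96.RD.NFI
import Pool.Agent.Helper40.RD.TRF

/-!
# Project PP (MP_fc6b1e_nt), part A3: the statement N_SPL
-/

set_option autoImplicit false

namespace Pool.Agent.Helper16.PPS

open NumberField Module IsDedekindDomain Pool.Agent.Helper51.RP Pool.Agent.Helper77.PPS
open Pool.Agent.Helper38.RS (pz)
open Pool.Agent.Helper42.PP (Spl)
open Pool.Agent.Helper40.RS (bel gw gw_inj efg bel_smul lies free_gw absNorm_free conj_of_bel)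
open Pool.Agent.Helper40.RD (bel_of_above)
open Pool.Agent.Helper99.RS (pz_mono pz_union pz_finite pz_eq summable_norm)
open scoped Pointwise

section

variable {K E : Type} [Field K] [NumberField K] [Field E] [NumberField E] [Algebra K E]
  [IsGalois K E]

/-- The completely split primes of `E`. -/
def Up (E : Type) [Field E] [NumberField E] [Algebra K E] (S : Finset (HeightOneSpectrum (𝓞 K))) :
    Set (HeightOneSpectrum (𝓞 E)) := {W | bel K W ∉ S ∧ FreeP K W}

theorem exists_gw (W W' : HeightOneSpectrum (𝓞 E)) (h : bel K W = bel K W') :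
    ∃ g : E ≃ₐ[K] E, gw g W' = W := by
  have h1 : W.asIdeal.LiesOver (bel K W').asIdeal := by rw [← h]; infer_instance
  obtain ⟨g, hg⟩ := Ideal.exists_smul_eq_of_isGaloisGroup (bel K W').asIdeal W'.asIdeal W.asIdeal
    (E ≃ₐ[K] E)
  exact ⟨g, HeightOneSpectrum.ext hg⟩

theorem bel_gw (g : E ≃ₐ[K] E) (W : HeightOneSpectrum (𝓞 E)) : bel K (gw g W) = bel K W :=
  bel_smul g W (gw g W) rfl

omit [IsGalois K E] in
theorem mem_spl (S : Finset (HeightOneSpectrum (𝓞 K))) (v : HeightOneSpectrum (𝓞 K)) :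
    v ∈ Spl E S ↔ v ∉ S ∧ ∃ W : HeightOneSpectrum (𝓞 E), bel K W = v ∧ FreeP K W := by
  constructor
  · rintro ⟨h1, W, h2, h3⟩
    exact ⟨h1, W, bel_of_above h2, h3⟩
  · rintro ⟨h1, W, h2, h3⟩
    exact ⟨h1, W, by rw [← h2]; rfl, h3⟩

theorem pz_up (S : Finset (HeightOneSpectrum (𝓞 K))) (s : ℝ) (hs : 1 < s) :
    pz (Up E S) s = (finrank K E : ℝ) * pz (Spl E S) s := by
  classical
  have hex : ∀ v : Spl E S, ∃ W : HeightOneSpectrum (𝓞 E), bel K W = v.1 ∧ FreeP K W :=
    fun v => ((mem_spl S v.1).1 v.2).2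
  choose W₀ hW₀ hfree using hex
  let e : (Spl E S) × (E ≃ₐ[K] E) ≃ (Up E S) := Equiv.ofBijective
    (fun x => ⟨gw x.2 (W₀ x.1), by
      refine ⟨?_, free_gw x.2 (W₀ x.1) (hfree x.1)⟩
      rw [bel_gw, hW₀]
      exact ((mem_spl S x.1.1).1 x.1.2).1⟩) (by
    constructor
    · rintro ⟨v, g⟩ ⟨v', g'⟩ h
      have h1 : gw g (W₀ v) = gw g' (W₀ v') := congrArg Subtype.val h
      have h2 : v = v' := by
        apply Subtype.ext
        rw [← hW₀ v, ← hW₀ v', ← bel_gw g (W₀ v), ← bel_gw g' (W₀ v'), h1]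
      subst h2
      rw [gw_inj (W₀ v) (hfree v) h1]
    · rintro ⟨W, hW1, hW2⟩
      have hv : bel K W ∈ Spl E S := (mem_spl S _).2 ⟨hW1, W, rfl, hW2⟩
      obtain ⟨g, hg⟩ := exists_gw W (W₀ ⟨bel K W, hv⟩) (by rw [hW₀])
      exact ⟨(⟨bel K W, hv⟩, g), Subtype.ext hg⟩)
  have hval : ∀ x : (Spl E S) × (E ≃ₐ[K] E),
      (Ideal.absNorm (e x).1.asIdeal : ℝ) ^ (-s) = (Ideal.absNorm x.1.1.asIdeal : ℝ) ^ (-s) := by
    rintro ⟨v, g⟩
    change (Ideal.absNorm (gw g (W₀ v)).asIdeal : ℝ) ^ (-s) = _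
    rw [absNorm_free (K := K) (gw g (W₀ v)) (free_gw g (W₀ v) (hfree v)), bel_gw, hW₀]
  have hfinG : Fintype (E ≃ₐ[K] E) := Fintype.ofFinite _
  have hcard : (Fintype.card (E ≃ₐ[K] E) : ℝ) = finrank K E := by
    rw [← IsGalois.card_aut_eq_finrank K E, Nat.card_eq_fintype_card]
  unfold pz
  rw [← e.tsum_eq]
  simp_rw [hval]
  have hsum : Summable fun v : Spl E S => (Ideal.absNorm v.1.asIdeal : ℝ) ^ (-s) :=
    (summable_norm s hs).subtype _
  have hsum2 : Summable fun x : (Spl E S) × (E ≃ₐ[K] E) =>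
      (Ideal.absNorm x.1.1.asIdeal : ℝ) ^ (-s) := by
    have h1 : Summable fun W : Up E S => (Ideal.absNorm W.1.asIdeal : ℝ) ^ (-s) :=
      (summable_norm s hs).subtype _
    have h2 := (e.summable_iff).2 h1
    exact h2.congr fun x => hval x
  rw [hsum2.tsum_prod]
  rw [← tsum_mul_left]
  refine tsum_congr fun v => ?_
  have h5 : ∑' c : (E ≃ₐ[K] E), (Ideal.absNorm ((v, c) : (Spl E S) × (E ≃ₐ[K] E)).1.1.asIdeal : ℝ) ^ (-s) =
      ∑ _c : (E ≃ₐ[K] E), (Ideal.absNorm v.1.asIdeal : ℝ) ^ (-s) := tsum_fintype _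
  rw [h5, Finset.sum_const, Finset.card_univ, nsmul_eq_mul, hcard]

theorem fin_bel (S : Finset (HeightOneSpectrum (𝓞 K))) :
    {W : HeightOneSpectrum (𝓞 E) | bel K W ∈ S}.Finite := by
  classical
  have h1 : {W : HeightOneSpectrum (𝓞 E) | bel K W ∈ S} ⊆
      ⋃ v ∈ S, {W : HeightOneSpectrum (𝓞 E) | bel K W = v} := by
    intro W hW
    exact Set.mem_biUnion hW rfl
  refine Set.Finite.subset (Set.Finite.biUnion S.finite_toSet fun v _ => ?_) h1
  rcases Set.eq_empty_or_nonempty {W : HeightOneSpectrum (𝓞 E) | bel K W = v} with h0 | ⟨W', hW'⟩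
  · rw [h0]; exact Set.finite_empty
  · have hfinG : Finite (E ≃ₐ[K] E) := inferInstance
    refine (Set.finite_range fun g : E ≃ₐ[K] E => gw g W').subset ?_
    intro W hW
    have h2 : bel K W = bel K W' := by
      rw [show bel K W = v from hW, show bel K W' = v from hW']
    obtain ⟨g, hg⟩ := exists_gw W W' h2
    exact ⟨g, hg⟩

theorem pz_spl (h3 : Pool.Agent.Helper38.RS.S_PSM) (h4 : Pool.Agent.Helper38.RS.S_DG1)
    (S : Finset (HeightOneSpectrum (𝓞 K))) : ∃ C : ℝ, 0 ≤ C ∧ ∀ s : ℝ, 1 < s → s ≤ 2 →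
    |(finrank K E : ℝ) * pz (Spl E S) s - Real.log (1 / (s - 1))| ≤ C := by
  obtain ⟨C₁, hC₁⟩ := h3 E
  obtain ⟨C₂, hC₂⟩ := h4 E
  obtain ⟨R, hR, hfree⟩ := Pool.Agent.Helper96.RD.free_of_prime (K := K) (K₁ := E)
  have hB := fin_bel (E := E) S
  refine ⟨|C₁| + |C₂| + hR.toFinset.card + hB.toFinset.card, by positivity, fun s hs hs2 => ?_⟩
  have e1 := hC₁ s hs hs2
  have e2 := hC₂ s hs hs2
  rw [← pz_up S s hs]
  have hcov : (Set.univ : Set (HeightOneSpectrum (𝓞 E))) ⊆ Up E S ∪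
      ({W : HeightOneSpectrum (𝓞 E) | bel K W ∈ S} ∪
        (R ∪ {v : HeightOneSpectrum (𝓞 E) | ¬ (Ideal.absNorm v.asIdeal).Prime})) := by
    intro W _
    by_cases a1 : bel K W ∈ S
    · exact Or.inr (Or.inl a1)
    by_cases a2 : W ∈ R
    · exact Or.inr (Or.inr (Or.inl a2))
    by_cases a3 : (Ideal.absNorm W.asIdeal).Prime
    · exact Or.inl ⟨a1, hfree W a2 a3⟩
    · exact Or.inr (Or.inr (Or.inr a3))
  have e4 := pz_mono hcov s hs
  have e5 := pz_union (Up E S) ({W : HeightOneSpectrum (𝓞 E) | bel K W ∈ S} ∪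
        (R ∪ {v : HeightOneSpectrum (𝓞 E) | ¬ (Ideal.absNorm v.asIdeal).Prime})) s hs
  have e6 := pz_union {W : HeightOneSpectrum (𝓞 E) | bel K W ∈ S}
        (R ∪ {v : HeightOneSpectrum (𝓞 E) | ¬ (Ideal.absNorm v.asIdeal).Prime}) s hs
  have e7 := pz_union R {v : HeightOneSpectrum (𝓞 E) | ¬ (Ideal.absNorm v.asIdeal).Prime} s hs
  have e8 := pz_finite hR s hs
  have e9 := pz_finite hB s hs
  have e10 := pz_mono (Set.subset_univ (Up E S)) s hs
  have a1 := le_abs_self C₁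
  have a2 := le_abs_self C₂
  have a3 := abs_nonneg C₂
  rw [abs_le] at e1 ⊢
  have b1 : (0 : ℝ) ≤ hR.toFinset.card := Nat.cast_nonneg _
  have b2 : (0 : ℝ) ≤ hB.toFinset.card := Nat.cast_nonneg _
  constructor
  · linarith [e1.1]
  · linarith [e1.2]

end

theorem n_spl (h1 : N_CHB) (h2 : P_MER) (h3 : Pool.Agent.Helper38.RS.S_PSM)
    (h4 : Pool.Agent.Helper38.RS.S_DG1) : N_SPL := by
  intro K E _ _ _ _ _ _ S
  classical
  obtain ⟨C, hC⟩ := h1 K
  obtain ⟨C', hC'0, hC'⟩ := h2 C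
  obtain ⟨C₄, hC₄0, hC₄⟩ := pz_spl (E := E) h3 h4 S
  set f : HeightOneSpectrum (𝓞 K) → ℝ := (Spl E S).indicator fun _ ↦ (1 : ℝ) with hf
  have hf0 : ∀ q, 0 ≤ f q := fun q => Set.indicator_nonneg (fun _ _ => zero_le_one) q
  have hf1 : ∀ q, |f q| ≤ 1 := by
    intro q
    rw [abs_of_nonneg (hf0 q)]
    exact Set.indicator_le_self' (fun _ _ => zero_le_one) q
  have hg0 : (0 : ℝ) < finrank K E := by exact_mod_cast finrank_pos
  set M := ms (nv (F := K)) f (Real.exp 1) with hM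
  have hterm : ∀ q : HeightOneSpectrum (𝓞 K), 0 ≤ f q / nv q := fun q =>
    div_nonneg (hf0 q) (Nat.cast_nonneg _)
  have hM0 : 0 ≤ M := Finset.sum_nonneg fun q _ => hterm q
  refine ⟨C' + C₄ / finrank K E + M + 1 / (finrank K E : ℝ) * |Real.log (Real.log 2)|, fun x hx => ?_⟩
  have hc1 : 0 ≤ C₄ / finrank K E := div_nonneg hC₄0 hg0.le
  have hc2 : 0 ≤ 1 / (finrank K E : ℝ) * |Real.log (Real.log 2)| := by positivity
  rcases le_or_gt (Real.exp 1) x with hxe | hxe
  · have hlog : 1 ≤ Real.log x := by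
      rw [Real.le_log_iff_exp_le (by linarith)]
      exact hxe
    have hlog0 : 0 < Real.log x := by linarith
    set s : ℝ := 1 + 1 / Real.log x with hs
    have hs1 : 1 < s := by
      rw [hs]
      have : 0 < 1 / Real.log x := by positivity
      linarith
    have hs2 : s ≤ 2 := by
      rw [hs]
      have : 1 / Real.log x ≤ 1 := by
        rw [div_le_one hlog0]; exact hlog
      linarith
    have e1 := hC₄ s hs1 hs2
    have e2 : 1 / (s - 1) = Real.log x := by
      rw [hs, add_sub_cancel_left, one_div_one_div]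
    rw [e2] at e1
    obtain ⟨-, e3⟩ := hC' _ nv hC f hf1 x hx
    have e4 : ∑' q, f q * ((nv q : ℕ) : ℝ) ^ (-(1 + 1 / Real.log x)) = pz (Spl E S) s := by
      rw [pz_eq]
      refine tsum_congr fun q => ?_
      by_cases hq : q ∈ Spl E S
      · rw [Set.indicator_of_mem hq, hf, Set.indicator_of_mem hq, one_mul]
        rfl
      · rw [Set.indicator_of_notMem hq, hf, Set.indicator_of_notMem hq, zero_mul]
    rw [e4] at e3
    have e5 : |pz (Spl E S) s - 1 / (finrank K E : ℝ) * Real.log (Real.log x)| ≤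
        C₄ / finrank K E := by
      have e6 : pz (Spl E S) s - 1 / (finrank K E : ℝ) * Real.log (Real.log x) =
          ((finrank K E : ℝ) * pz (Spl E S) s - Real.log (Real.log x)) / finrank K E := by
        field_simp
      rw [e6, abs_div, abs_of_pos hg0]
      exact div_le_div_of_nonneg_right e1 hg0.le
    have e7 := abs_sub_le (ms nv f x) (pz (Spl E S) s)
      (1 / (finrank K E : ℝ) * Real.log (Real.log x))
    linarith
  · have hx0 : 0 < x := by linarith
    have hlx : Real.log x ≤ 1 := by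
      rw [Real.log_le_iff_le_exp hx0]
      exact hxe.le
    have hl2 : 0 < Real.log 2 := Real.log_pos (by norm_num)
    have hl2x : Real.log 2 ≤ Real.log x := Real.log_le_log (by norm_num) hx
    have hll : |Real.log (Real.log x)| ≤ |Real.log (Real.log 2)| := by
      have a1 : Real.log (Real.log x) ≤ 0 := Real.log_nonpos (by linarith) hlx
      have a2 : Real.log (Real.log 2) ≤ Real.log (Real.log x) := Real.log_le_log hl2 hl2x
      rw [abs_of_nonpos a1, abs_of_nonpos (a2.trans a1)]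
      linarith
    have hms0 : 0 ≤ ms nv f x := Finset.sum_nonneg fun q _ => hterm q
    have hms : ms nv f x ≤ M := by
      refine Finset.sum_le_sum_of_subset_of_nonneg (fun q hq => ?_) fun q _ _ => hterm q
      rw [mem_pr hC] at hq ⊢
      exact hq.trans hxe.le
    have e1 : |1 / (finrank K E : ℝ) * Real.log (Real.log x)| ≤
        1 / (finrank K E : ℝ) * |Real.log (Real.log 2)| := by
      rw [abs_mul, abs_of_pos (by positivity : (0 : ℝ) < 1 / (finrank K E : ℝ))]
      exact mul_le_mul_of_nonneg_left hll (by positivity)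
    have e2 := abs_sub (ms nv f x) (1 / (finrank K E : ℝ) * Real.log (Real.log x))
    rw [abs_of_nonneg hms0] at e2
    linarith

end Pool.Agent.Helper16.PPS
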